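import Pool.Agent.H27.L1.H34.GZ.Targets1

/-!
Fourth moment over the cusp forms of GL_m(Z): lattice points of a Siegel reduced lattice (row CNT).
-/

set_option autoImplicit false

namespace Pool.Agent.H27.L1.H95.GZ

open Pool.Agent.H27.L1.H34.GM Pool.Agent.H27.L1.H34.GZ Matrix

theorem rowN_orth {m : ℕ} {k : Mat m} (hk : k * k.transpose = 1) (v : Fin m → ℝ) :
    rowN (v ᵥ* k) = rowN v := by
  have h1 : (v ᵥ* k) ⬝ᵥ (v ᵥ* k) = v ⬝ᵥ v := by
    rw [← dotProduct_mulVec, ← vecMul_transpose, vecMul_vecMul, hk, vecMul_one]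
  have h2 : ∀ w : Fin m → ℝ, ∑ i, w i ^ 2 = w ⬝ᵥ w := by
    intro w
    simp [dotProduct, sq]
  unfold rowN
  rw [h2, h2, h1]

theorem abs_le_rowN {m : ℕ} (v : Fin m → ℝ) (j : Fin m) : |v j| ≤ rowN v := by
  unfold rowN
  apply Real.le_sqrt_of_sq_le
  rw [sq_abs]
  exact Finset.single_le_sum (f := fun i => v i ^ 2) (fun i _ => sq_nonneg _) (Finset.mem_univ j)

theorem vecMul_diag_mul {m : ℕ} (w : Fin m → ℝ) (n : Mat m) (a : Fin m → ℝ) (k : Mat m) :
    w ᵥ* (n * diagonal a * k) = (fun j => (w ᵥ* n) j * a j) ᵥ* k := by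
  rw [← vecMul_vecMul, ← vecMul_vecMul]
  congr 1
  funext j
  rw [vecMul_diagonal]

/-- the length of a lattice vector in the Siegel coordinates -/
theorem rowN_vb {m : ℕ} {b n : Mat m} {a : Fin m → ℝ} {k : Mat m} (h : Sgl b n a k)
    (c : Fin m → ℤ) :
    rowN (vb c b) = rowN (fun j => ((fun i => (c i : ℝ)) ᵥ* n) j * a j) := by
  unfold vb
  rw [h.eq, vecMul_diag_mul, rowN_orth h.orth]

/-- the coordinate `j` of `c n` -/
theorem vecMul_lower {m : ℕ} {b n : Mat m} {a : Fin m → ℝ} {k : Mat m} (h : Sgl b n a k)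
    (c : Fin m → ℤ) (j : Fin m) :
    ((fun i => (c i : ℝ)) ᵥ* n) j =
      c j + ∑ i ∈ Finset.univ.filter (fun i => j < i), (c i : ℝ) * n i j := by
  have h1 : ((fun i => (c i : ℝ)) ᵥ* n) j = ∑ i, (c i : ℝ) * n i j := rfl
  rw [h1, ← Finset.sum_filter_add_sum_filter_not Finset.univ (fun i => j < i), add_comm]
  congr 1
  rw [Finset.sum_eq_single j]
  · rw [h.one, mul_one]
  · intro i hi hij
    rw [Finset.mem_filter] at hi
    have : i < j := lt_of_le_of_ne (not_lt.1 hi.2) hij
    rw [h.up i j this, mul_zero]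
  · intro hj
    exact absurd (Finset.mem_filter.2 ⟨Finset.mem_univ j, lt_irrefl j⟩) hj

theorem cnt_part {m : ℕ} {b n : Mat m} {a : Fin m → ℝ} {k : Mat m} (h : Sgl b n a k)
    (ρ : ℝ) (hρ : 0 ≤ ρ) : {c : Fin m → ℤ | rowN (vb c b) ≤ ρ}.Finite ∧
    ({c : Fin m → ℤ | rowN (vb c b) ≤ ρ}.ncard : ℝ) ≤ ∏ j, (1 + 2 * ρ / a j) := by
  classical
  set L : (Fin m → ℤ) → Fin m → ℝ := fun c j =>
    -(ρ / a j) - ∑ i ∈ Finset.univ.filter (fun i => j < i), (c i : ℝ) * n i j with hL
  let φ : (Fin m → ℤ) → Fin m → ℤ := fun c j => c j - ⌈L c j⌉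
  let T : Finset (Fin m → ℤ) := Fintype.piFinset fun j => Finset.Icc (0 : ℤ) ⌊2 * ρ / a j⌋
  have hmaps : ∀ c ∈ {c : Fin m → ℤ | rowN (vb c b) ≤ ρ}, φ c ∈ (T : Set (Fin m → ℤ)) := by
    intro c hc
    have hc' : rowN (vb c b) ≤ ρ := hc
    rw [rowN_vb h] at hc'
    refine Finset.mem_coe.2 (Fintype.mem_piFinset.2 fun j => ?_)
    have h1 := (abs_le_rowN (fun j => ((fun i => (c i : ℝ)) ᵥ* n) j * a j) j).trans hc'
    have h2 : |((fun i => (c i : ℝ)) ᵥ* n) j * a j| ≤ ρ := h1
    rw [abs_mul, abs_of_pos (h.pos j), ← le_div_iff₀ (h.pos j), vecMul_lower h] at h2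
    obtain ⟨h3, h4⟩ := abs_le.1 h2
    have h5 : L c j ≤ c j := by rw [hL]; simp only; linarith
    have h6 : (c j : ℝ) - L c j ≤ 2 * ρ / a j := by
      have : 2 * ρ / a j = ρ / a j + ρ / a j := by ring
      rw [hL, this]; simp only; linarith
    rw [Finset.mem_Icc]
    constructor
    · have := Int.ceil_le.2 h5
      simp only [φ]
      omega
    · apply Int.le_floor.2
      simp only [φ]
      push_cast
      have := Int.le_ceil (L c j)
      linarith
  have hinj : Set.InjOn φ {c : Fin m → ℤ | rowN (vb c b) ≤ ρ} := by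
    intro c _ c' _ hcc
    by_contra hne
    have hne' : (Finset.univ.filter fun j => c j ≠ c' j).Nonempty := by
      by_contra hem
      rw [Finset.not_nonempty_iff_eq_empty, Finset.filter_eq_empty_iff] at hem
      exact hne (funext fun j => not_not.1 (hem (Finset.mem_univ j)))
    obtain ⟨j, hj, hmax⟩ := Finset.exists_max_image _ id hne'
    have hgt : ∀ i, j < i → c i = c' i := by
      intro i hi
      by_contra hci
      have := hmax i (Finset.mem_filter.2 ⟨Finset.mem_univ i, hci⟩)
      exact absurd hi (not_lt.2 this)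
    have hLL : L c j = L c' j := by
      rw [hL]
      simp only
      congr 1
      apply Finset.sum_congr rfl
      intro i hi
      rw [hgt i (Finset.mem_filter.1 hi).2]
    have h1 := congrFun hcc j
    simp only [φ] at h1
    rw [hLL] at h1
    exact (Finset.mem_filter.1 hj).2 (by omega)
  have hfin : {c : Fin m → ℤ | rowN (vb c b) ≤ ρ}.Finite :=
    Set.Finite.of_injOn hmaps hinj T.finite_toSet
  refine ⟨hfin, ?_⟩
  have h1 : {c : Fin m → ℤ | rowN (vb c b) ≤ ρ}.ncard ≤ T.card := by
    rw [← Set.ncard_coe_finset T]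
    exact Set.ncard_le_ncard_of_injOn φ hmaps hinj T.finite_toSet
  have h2 : (T.card : ℝ) ≤ ∏ j, (1 + 2 * ρ / a j) := by
    rw [Fintype.card_piFinset]
    push_cast
    apply Finset.prod_le_prod
    · intro j _
      exact Nat.cast_nonneg _
    · intro j _
      have h0 : 0 ≤ 2 * ρ / a j := by
        have := h.pos j
        positivity
      have h3 : (0 : ℤ) ≤ ⌊2 * ρ / a j⌋ := Int.floor_nonneg.2 h0
      rw [Int.card_Icc]
      have h4 : (((⌊2 * ρ / a j⌋ + 1 - 0).toNat : ℕ) : ℝ) = (⌊2 * ρ / a j⌋ : ℝ) + 1 := by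
        have : (((⌊2 * ρ / a j⌋ + 1 - 0).toNat : ℕ) : ℤ) = ⌊2 * ρ / a j⌋ + 1 := by
          rw [Int.toNat_of_nonneg (by omega)]
          ring
        exact_mod_cast this
      rw [h4]
      have := Int.floor_le (2 * ρ / a j)
      linarith
  exact (Nat.cast_le.2 h1).trans h2

theorem pf_CNT : T_CNT := by
  classical
  intro m b n a k h
  refine ⟨fun ρ hρ => cnt_part h ρ hρ, fun i => ?_, fun c t hc ht => ?_, ?_⟩
  · have h1 : b i = (fun j => n i j * a j) ᵥ* k := by
      rw [h.eq, mul_apply_eq_vecMul]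
      congr 1
      funext j
      rw [mul_diagonal]
    rw [h1, rowN_orth h.orth]
    have h2 : ∀ j, (n i j * a j) ^ 2 ≤ (2 ^ m * a i) ^ 2 := by
      intro j
      apply sq_le_sq'
      · have h3 : |n i j * a j| ≤ 2 ^ m * a i := by
          have hai := h.pos i
          rcases lt_trichotomy j i with hji | hji | hji
          · rw [abs_mul, abs_of_pos (h.pos j)]
            have h4 := h.lo i j hji
            have h5 := h.ord j i hji.le
            have h6 := h.pos j
            have h7 : |n i j| * a j ≤ 1 * a j := by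
              apply mul_le_mul_of_nonneg_right _ h6.le
              linarith
            linarith
          · subst hji
            rw [h.one, one_mul, abs_of_pos hai]
            have : (1 : ℝ) ≤ 2 ^ m := one_le_pow₀ (by norm_num)
            nlinarith
          · rw [h.up i j hji, zero_mul, abs_zero]
            positivity
        exact (abs_le.1 h3).1
      · have h3 : |n i j * a j| ≤ 2 ^ m * a i := by
          have hai := h.pos i
          rcases lt_trichotomy j i with hji | hji | hji
          · rw [abs_mul, abs_of_pos (h.pos j)]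
            have h4 := h.lo i j hji
            have h5 := h.ord j i hji.le
            have h6 := h.pos j
            have h7 : |n i j| * a j ≤ 1 * a j := by
              apply mul_le_mul_of_nonneg_right _ h6.le
              linarith
            linarith
          · subst hji
            rw [h.one, one_mul, abs_of_pos hai]
            have : (1 : ℝ) ≤ 2 ^ m := one_le_pow₀ (by norm_num)
            nlinarith
          · rw [h.up i j hji, zero_mul, abs_zero]
            positivity
        exact (abs_le.1 h3).2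
    unfold rowN
    have hai := h.pos i
    apply Real.sqrt_le_iff.2
    refine ⟨by positivity, ?_⟩
    calc ∑ j, (n i j * a j) ^ 2 ≤ ∑ _j : Fin m, (2 ^ m * a i) ^ 2 :=
          Finset.sum_le_sum fun j _ => h2 j
      _ = m * (2 ^ m * a i) ^ 2 := by
          rw [Finset.sum_const, Finset.card_univ, Fintype.card_fin, nsmul_eq_mul]
      _ ≤ (m : ℝ) ^ 2 * (2 ^ m * a i) ^ 2 := by
          apply mul_le_mul_of_nonneg_right _ (sq_nonneg _)
          have h3 : m ≤ m ^ 2 := Nat.le_self_pow (by norm_num) m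
          exact_mod_cast h3
      _ = (m * 2 ^ m * a i) ^ 2 := by ring
  · rw [rowN_vb h]
    refine le_trans ?_ (abs_le_rowN (fun j => ((fun i => (c i : ℝ)) ᵥ* n) j * a j) t)
    have h1 : ((fun i => (c i : ℝ)) ᵥ* n) t = c t := by
      rw [vecMul_lower h, Finset.sum_eq_zero, add_zero]
      intro i hi
      rw [hc i (Finset.mem_filter.1 hi).2, Int.cast_zero, zero_mul]
    have h2 : a t ≤ |((fun i => (c i : ℝ)) ᵥ* n) t * a t| := by
      rw [h1, abs_mul, abs_of_pos (h.pos t)]
      have h3 : (1 : ℝ) ≤ |(c t : ℝ)| := by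
        have : (1 : ℤ) ≤ |c t| := Int.one_le_abs ht
        exact_mod_cast this
      have := h.pos t
      nlinarith
    exact h2
  · have h1 : n.det = 1 := by
      have hlt : n.IsLowerTriangular := fun i j hij => h.up i j hij
      rw [det_of_isLowerTriangular n hlt]
      exact Finset.prod_eq_one fun i _ => h.one i
    have h2 : |k.det| = 1 := by
      have h3 : k.det * k.det = 1 := by
        have := congrArg Matrix.det h.orth
        rwa [det_mul, det_transpose, det_one] at this
      have h4 : |k.det| * |k.det| = 1 := by rw [← abs_mul, h3, abs_one]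
      nlinarith [abs_nonneg k.det]
    rw [h.eq, det_mul, det_mul, h1, one_mul, det_diagonal, abs_mul, h2, mul_one, abs_of_pos]
    exact Finset.prod_pos fun i _ => h.pos i

end Pool.Agent.H27.L1.H95.GZ
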